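import Pool.Agent.Y72.Tr.Four
import Pool.Agent.Y72.Log.Fg
import Pool.Agent.H23R2.Bridge
import Mathlib.Algebra.Module.CharacterModule

/-!
# The Dennis trace of an invertible matrix in all coefficients
-/

set_option autoImplicit false
set_option linter.unusedSectionVars false

namespace Pool.Agent.Y72.Tr

open Finset H219.Wh Pool.Agent.Y72.Log Pool.Agent.Y72.Dt
open Pool.Agent.H23R2 (InvPair IsCoc DsumZ cf supp invPair_units mem_supp pairing pairing_eq
  isCoc_of_hochschild)
open scoped Classical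

universe u

section main

variable {Γ : Type*} [Group Γ] {n : ℕ}

lemma PD_eq (A : (Matrix (Fin n) (Fin n) (MonoidAlgebra ℤ Γ))ˣ) {M : Type*} [AddCommGroup M]
    (F : Γ → Γ → M) : PD A F = Dsum (grl (supp A.val ∪ supp (A⁻¹).val) (Kb A))
      (lett (cf A.val) (supp A.val ∪ supp (A⁻¹).val) (Kb A))
      (lett (cf (A⁻¹).val) (supp A.val ∪ supp (A⁻¹).val) (Kb A)) F := by
  have ha : ∀ i j g, (cf A.val i j g).natAbs ≤ Kb A :=
    fun i j g => ((exists_bound A.val).choose_spec i j g).trans (le_max_left _ _)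
  have hb' : ∀ i j g, (cf (A⁻¹).val i j g).natAbs ≤ Kb A :=
    fun i j g => ((exists_bound (A⁻¹).val).choose_spec i j g).trans (le_max_right _ _)
  unfold PD
  rw [← Dsum_lett _ _ _ _ ha hb']

lemma ip_A (A : (Matrix (Fin n) (Fin n) (MonoidAlgebra ℤ Γ))ˣ) :
    IP (grl (supp A.val ∪ supp (A⁻¹).val) (Kb A))
      (lett (cf A.val) (supp A.val ∪ supp (A⁻¹).val) (Kb A))
      (lett (cf (A⁻¹).val) (supp A.val ∪ supp (A⁻¹).val) (Kb A)) := by
  have ha : ∀ i j g, (cf A.val i j g).natAbs ≤ Kb A :=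
    fun i j g => ((exists_bound A.val).choose_spec i j g).trans (le_max_left _ _)
  have hb' : ∀ i j g, (cf (A⁻¹).val i j g).natAbs ≤ Kb A :=
    fun i j g => ((exists_bound (A⁻¹).val).choose_spec i j g).trans (le_max_right _ _)
  exact ip_of_invPair (invPair_units A) (Kb A) ha hb'

/-- cocycles supported on one class -/
theorem PD_class_tors (A : (Matrix (Fin n) (Fin n) (MonoidAlgebra ℤ Γ))ˣ) (hb : Cen Γ)
    (hu : UR Γ) {c : Γ} (hc : c ≠ 1) {M : Type*} [AddCommGroup M] {G : Γ → Γ → M}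
    (hG : IsCoc G) (hs : ∀ w x, ¬ IsConj c w → G w x = 0) :
    (ff hb c c ^ 2) • PD A G = 0 := by
  set lam : ℤ := ff hb c c with hlam
  have hLC : LC c (cocF c (ff hb c)) lam := LC.of_addOn (ff_add hb hc)
  set F0 := cocF c (ff hb c) with hF0
  set G' : Γ → Γ → M := fun w x => lam • G w x - F0 w x • G c c with hG'
  have hcoc : IsCoc G' := by
    intro w x y
    show lam • G w (x * y) - F0 w (x * y) • G c c = _
    rw [hG w x y, hLC.coc w x y]
    simp only [hG', smul_add, add_smul]
    abel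
  have hdiag : ∀ w, G' w w = 0 := by
    intro w
    by_cases hw : IsConj c w
    · show lam • G w w - F0 w w • G c c = 0
      rw [coc_conj hG hw, hLC.diag w hw, sub_self]
    · show lam • G w w - F0 w w • G c c = 0
      rw [hs w w hw, hLC.off w w hw, smul_zero, zero_smul, sub_zero]
  have h1 := four (ip_A A) (lam := lam) hLC.coc hcoc hdiag (by
    intro w
    by_cases hw : IsConj c w
    · exact Or.inl (hLC.diag w hw)
    · right
      intro x
      show lam • G w x - F0 w x • G c c = 0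
      rw [hs w x hw, hLC.off w x hw, smul_zero, zero_smul, sub_zero])
  rw [← PD_eq] at h1
  have h2 : PD A G' = lam • PD A G - (PD A F0) • G c c := by
    have e1 : PD A (fun w x => lam • G w x) = lam • PD A G :=
      (map_PD A (DistribSMul.toAddMonoidHom M lam) G).symm
    have e2 : PD A (fun w x => F0 w x • G c c) = (PD A F0) • G c c :=
      (map_PD A (zmultiplesHom M (G c c) : ℤ →+ M) F0).symm
    have e3 := PD_add A (fun w x => G' w x) (fun w x => F0 w x • G c c)
    have e4 : (fun w x => G' w x + F0 w x • G c c) = fun w x => lam • G w x := by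
      funext w x
      exact sub_add_cancel _ _
    rw [e4, e1, e2] at e3
    rw [e3]
    exact (add_sub_cancel_right _ _).symm
  have h3 : PD A F0 = 0 := by
    apply PD_int_zero A hb hu hLC.coc
    intro x
    apply hLC.off
    intro h5
    exact hc (isConj_one_left.1 h5)
  rw [h2, h3, zero_smul, sub_zero, ← mul_smul] at h1
  rw [pow_two]
  exact h1

/-- the classes which occur -/
noncomputable def TA (A : (Matrix (Fin n) (Fin n) (MonoidAlgebra ℤ Γ))ˣ) :
    Finset (ConjClasses Γ) := insert (ConjClasses.mk 1)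
    (((supp A.val ∪ supp (A⁻¹).val) ×ˢ (supp A.val ∪ supp (A⁻¹).val)).image
    (fun y => ConjClasses.mk (y.1 * y.2)))

lemma PD_TA (A : (Matrix (Fin n) (Fin n) (MonoidAlgebra ℤ Γ))ˣ) {M : Type*} [AddCommGroup M]
    (F : Γ → Γ → M) : PD A F = PD A (clF F (ConjClasses.mk 1)) +
      ∑ C ∈ TA A with C ≠ ConjClasses.mk 1, PD A (clF F C) := by
  have h1 : PD A F = ∑ C ∈ TA A, PD A (clF F C) := by
    unfold PD DsumZ
    rw [Finset.sum_comm]
    apply Finset.sum_congr rfl
    intro y _
    rw [← Finset.smul_sum]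
    congr 1
    unfold clF
    rw [Finset.sum_ite_eq, if_pos]
    apply Finset.mem_insert_of_mem
    apply Finset.mem_image_of_mem (fun y : Γ × Γ => ConjClasses.mk (y.1 * y.2))
      (a := ((y.2.2.1 : Γ), (y.2.2.2 : Γ)))
    rw [Finset.mem_product]
    exact ⟨y.2.2.1.2, y.2.2.2.2⟩
  have h2 : ConjClasses.mk 1 ∈ TA A := Finset.mem_insert_self _ _
  rw [h1, Finset.filter_ne']
  exact (Finset.add_sum_erase _ (fun C => PD A (clF F C)) h2).symm

/-- **the difference of the Dennis traces is torsion** -/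
theorem PD_tors (A : (Matrix (Fin n) (Fin n) (MonoidAlgebra ℤ Γ))ˣ) (hb : Cen Γ)
    (hu : UR Γ) : ∃ k : ℕ, 0 < k ∧ ∀ (M : Type u) [AddCommGroup M] (F : Γ → Γ → M),
      IsCoc F → k • (PD A F - F 1 (gamA A)) = 0 := by
  let T := (TA A).filter (fun C => C ≠ ConjClasses.mk 1)
  let e : ConjClasses Γ → ℤ := fun C => ff hb (rep C) (rep C) ^ 2
  have hne : ∀ C ∈ T, rep C ≠ 1 := by
    intro C hC h3
    apply (Finset.mem_filter.1 hC).2
    rw [← mk_out C, h3]
  have he : ∀ C ∈ T, e C ≠ 0 := fun C hC => pow_ne_zero 2 (ff_ne hb (hne C hC))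
  refine ⟨(∏ C ∈ T, e C).natAbs, Int.natAbs_pos.2 (Finset.prod_ne_zero_iff.2 he), ?_⟩
  intro M _ F hF
  have h1 : (∏ C ∈ T, e C) • (PD A F - F 1 (gamA A)) = 0 := by
    rw [PD_TA A F, PD_one A hF, add_sub_cancel_left, Finset.smul_sum]
    apply Finset.sum_eq_zero
    intro C hC
    obtain ⟨r, hr⟩ := Finset.dvd_prod_of_mem e hC
    have h2 := PD_class_tors A hb hu (hne C hC) (clF_coc hF C) (by
      intro w x hw
      exact if_neg (fun hc => hw ((isConj_out_iff C w).2 hc)))
    rw [hr, mul_comm, mul_smul]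
    show r • ((ff hb (rep C) (rep C) ^ 2) • _) = 0
    rw [h2, smul_zero]
  rcases Int.natAbs_eq (∏ C ∈ T, e C) with h2 | h2
  · rw [h2, natCast_zsmul] at h1
    exact h1
  · rw [h2, neg_smul, natCast_zsmul, neg_eq_zero] at h1
    exact h1

/-- **the difference of the Dennis traces is divisible by prime powers** -/
theorem PD_pow (A : (Matrix (Fin n) (Fin n) (MonoidAlgebra ℤ Γ))ˣ) (hb : Cen Γ)
    (hu : UR Γ) {M : Type*} [AddCommGroup M] {F : Γ → Γ → M} (hF : IsCoc F) {p : ℕ}
    (hp : p.Prime) (N : ℕ) : ∃ y : M, PD A F - F 1 (gamA A) = (p ^ N) • y := by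
  let φ : M →+ M := nsmulAddMonoidHom (p ^ N)
  let q : M →+ M ⧸ φ.range := QuotientAddGroup.mk' φ.range
  have hM : ∀ x : M ⧸ φ.range, (p ^ N) • x = 0 := by
    intro x
    obtain ⟨x, rfl⟩ := QuotientAddGroup.mk'_surjective φ.range x
    rw [← map_nsmul]
    exact (QuotientAddGroup.eq_zero_iff _).2 ⟨x, rfl⟩
  let Tn : AddSubgroup (AddCircle (1 : ℚ)) := (nsmulAddMonoidHom (p ^ N)).ker
  have key : q (PD A F - F 1 (gamA A)) = 0 := by
    by_contra hne
    obtain ⟨c, hc⟩ := CharacterModule.exists_character_apply_ne_zero_of_ne_zero hne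
    let c' : (M ⧸ φ.range) →+ Tn := AddMonoidHom.codRestrict c Tn (by
      intro x
      show (p ^ N) • c x = 0
      rw [← map_nsmul, hM, map_zero])
    have h1 := PD_main0 A hb hu hp (N := N) (M := Tn) (by
      intro x
      apply Subtype.ext
      exact x.2) (F := fun w x => c' (q (F w x))) (by
      intro w x y
      show c' (q _) = c' (q _) + c' (q _)
      rw [← map_add, ← map_add, hF])
    have h2 : c' (q (PD A F - F 1 (gamA A))) = 0 := by
      rw [map_sub, map_sub, map_PD A q F, map_PD A c' (fun w x => q (F w x)), h1, sub_self]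
    apply hc
    exact congrArg Subtype.val h2
  obtain ⟨y, hy⟩ := (QuotientAddGroup.eq_zero_iff _).1 key
  exact ⟨y, hy.symm⟩

/-- **the difference of the Dennis traces is divisible** -/
theorem PD_div (A : (Matrix (Fin n) (Fin n) (MonoidAlgebra ℤ Γ))ˣ) (hb : Cen Γ)
    (hu : UR Γ) {M : Type*} [AddCommGroup M] {F : Γ → Γ → M} (hF : IsCoc F) (m : ℕ)
    (hm : 0 < m) : ∃ y : M, PD A F - F 1 (gamA A) = m • y := by
  induction m using Nat.recOnPosPrimePosCoprime with
  | prime_pow p N hp _ => exact PD_pow A hb hu hF hp N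
  | zero => exact absurd hm (lt_irrefl 0)
  | one => exact ⟨_, (one_smul ℕ _).symm⟩
  | coprime a b ha hb' hab iha ihb =>
    obtain ⟨y, hy⟩ := iha (by omega)
    obtain ⟨z, hz⟩ := ihb (by omega)
    refine ⟨(Nat.gcdA a b) • z + (Nat.gcdB a b) • y, ?_⟩
    have h1 := Nat.gcd_eq_gcd_ab a b
    rw [hab] at h1
    set x := PD A F - F 1 (gamA A) with hx
    have h2 : x = ((a : ℤ) * Nat.gcdA a b + (b : ℤ) * Nat.gcdB a b) • x := by
      rw [← h1, Nat.cast_one, one_smul]
    rw [h2, add_smul, smul_add]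
    congr 1
    · rw [← natCast_zsmul, ← mul_smul]
      conv_lhs => rw [hz]
      rw [← natCast_zsmul, ← mul_smul]
      congr 1
      push_cast
      ring
    · rw [← natCast_zsmul, ← mul_smul]
      conv_lhs => rw [hy]
      rw [← natCast_zsmul, ← mul_smul]
      congr 1
      push_cast
      ring

end main

end Pool.Agent.Y72.Tr
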