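import Pool.Agent.Y72.Tr.Tors
import Pool.Agent.Y72.Dt.UrLin

/-!
# The Dennis trace: passage to finitely generated subgroups
-/

set_option autoImplicit false
set_option linter.unusedSectionVars false

namespace Pool.Agent.Y72.Tr

open Finset H219.Wh Pool.Agent.Y72.Log Pool.Agent.Y72.Dt
open Pool.Agent.H23R2 (InvPair IsCoc DsumZ cf supp invPair_units mem_supp pairing pairing_eq
  isCoc_of_hochschild)
open scoped Classical

variable {Γ Γ' : Type*} [Group Γ] [Group Γ'] {n : ℕ} {M : Type*} [AddCommGroup M]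

/-- sums over the support as additive maps -/
lemma sum_mp (π : Γ' →* Γ) (x : MonoidAlgebra ℤ Γ') (F : Γ → M) :
    ((mp π x).coeff.sum fun g a => a • F g) = x.coeff.sum fun g a => a • F (π g) := by
  induction x using MonoidAlgebra.induction_linear with
  | zero => simp
  | add x y hx hy =>
    rw [map_add, MonoidAlgebra.coeff_add, MonoidAlgebra.coeff_add,
      Finsupp.sum_add_index' (h := fun g a => a • F g) (fun _ => zero_smul _ _)
        (fun _ _ _ => add_smul _ _ _),
      Finsupp.sum_add_index' (h := fun g a => a • F (π g)) (fun _ => zero_smul _ _)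
        (fun _ _ _ => add_smul _ _ _), hx, hy]
  | single g a =>
    rw [mp_single, MonoidAlgebra.coeff_single, MonoidAlgebra.coeff_single,
      Finsupp.sum_single_index (h := fun g a => a • F g) (zero_smul _ _),
      Finsupp.sum_single_index (h := fun g a => a • F (π g)) (zero_smul _ _)]

lemma pairing_mpU (π : Γ' →* Γ) (A : (Matrix (Fin n) (Fin n) (MonoidAlgebra ℤ Γ'))ˣ)
    (f : Γ → Γ → M) : pairing f ((mpU π A)⁻¹).val (mpU π A).val =
      pairing (fun x y => f (π x) (π y)) (A⁻¹).val A.val := by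
  unfold pairing
  apply Finset.sum_congr rfl
  intro i _
  apply Finset.sum_congr rfl
  intro j _
  have h1 : ((mpU π A)⁻¹).val i j = mp π ((A⁻¹).val i j) := by
    have h2 : (mpU π A)⁻¹ = mpU π A⁻¹ := (map_inv _ _).symm
    rw [h2]
    rfl
  have e1 : ∀ (x : MonoidAlgebra ℤ Γ) (y : MonoidAlgebra ℤ Γ),
      (x.coeff.sum fun g b => y.coeff.sum fun h a => (b * a) • f g h) =
      x.coeff.sum fun g b => b • (y.coeff.sum fun h a => a • f g h) := by
    intro x y
    apply Finsupp.sum_congr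
    intro g _
    rw [Finsupp.smul_sum]
    apply Finsupp.sum_congr
    intro h _
    rw [mul_smul]
  have e2 : ∀ (x : MonoidAlgebra ℤ Γ') (y : MonoidAlgebra ℤ Γ'),
      (x.coeff.sum fun g b => y.coeff.sum fun h a => (b * a) • f (π g) (π h)) =
      x.coeff.sum fun g b => b • (y.coeff.sum fun h a => a • f (π g) (π h)) := by
    intro x y
    apply Finsupp.sum_congr
    intro g _
    rw [Finsupp.smul_sum]
    apply Finsupp.sum_congr
    intro h _
    rw [mul_smul]
  have h3 : (mpU π A).val j i = mp π (A.val j i) := rfl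
  rw [h1, h3, e1, e2, sum_mp π ((A⁻¹).val i j)]
  apply Finsupp.sum_congr
  intro g _
  rw [sum_mp]

lemma pairing_PD (A : (Matrix (Fin n) (Fin n) (MonoidAlgebra ℤ Γ))ˣ) (f : Γ → Γ → M) :
    pairing f (A⁻¹).val A.val = PD A (fun w x => f (x⁻¹ * w) x) := by
  have hA : ∀ i j g, (A.val i j).coeff g ≠ 0 → g ∈ supp A.val ∪ supp (A⁻¹).val := fun i j g hg =>
    Finset.mem_union_left _ (mem_supp _ i j g hg)
  have hB : ∀ i j g, ((A⁻¹).val i j).coeff g ≠ 0 → g ∈ supp A.val ∪ supp (A⁻¹).val :=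
    fun i j g hg => Finset.mem_union_right _ (mem_supp _ i j g hg)
  exact pairing_eq f (A⁻¹).val A.val _ hA hB

universe u w

/-- **the Dennis trace**, for groups all of whose finitely generated subgroups satisfy the
conditions on centralisers and roots -/
theorem trace_fg {Γ : Type u} [Group Γ] {n : ℕ}
    (hb : ∀ H : Subgroup Γ, H.FG → Cen H) (hu : ∀ H : Subgroup Γ, H.FG → UR H)
    (A : (Matrix (Fin n) (Fin n) (MonoidAlgebra ℤ Γ))ˣ) :
    ∃ γ : Γ, ∃ k : ℕ, 0 < k ∧ ∀ (M : Type w) [AddCommGroup M] (f : Γ → Γ → M),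
      (∀ x y z : Γ, f (x * y) z - f x (y * z) + f (z * x) y = 0) →
      k • (pairing f (A⁻¹).val A.val - f γ⁻¹ γ) = 0 ∧
      ∀ m : ℕ, 0 < m → ∃ y : M, pairing f (A⁻¹).val A.val - f γ⁻¹ γ = m • y := by
  obtain ⟨H, hH, hS⟩ := exists_fg A
  obtain ⟨A', hA'⟩ := exists_sub A H hS
  obtain ⟨k, hk, h1⟩ := PD_tors.{w} A' (hb H hH) (hu H hH)
  refine ⟨(gamA A' : H), k, hk, ?_⟩
  intro M _ f hf
  have hcoc : IsCoc (fun (w x : H) => f ((x⁻¹ : H) * (w : H) : H) (x : H)) :=
    isCoc_of_hochschild (fun x y : H => f x y) (fun x y z => hf x y z)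
  have h2 : pairing f (A⁻¹).val A.val =
      PD A' (fun (w x : H) => f ((x⁻¹ : H) * (w : H) : H) (x : H)) := by
    rw [hA', pairing_mpU]
    exact pairing_PD A' (fun x y : H => f x y)
  have h3 : f ((gamA A' : H) : Γ)⁻¹ ((gamA A' : H) : Γ) =
      (fun (w x : H) => f ((x⁻¹ : H) * (w : H) : H) (x : H)) 1 (gamA A') := by
    simp
  rw [h2, h3]
  exact ⟨h1 M _ hcoc, fun m hm => PD_div A' (hb H hH) (hu H hH) hcoc m hm⟩

end Pool.Agent.Y72.Tr
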