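import Pool.Agent.Y72.Dt.Main

/-!
# Words of four letters
-/

set_option autoImplicit false
set_option linter.unusedSectionVars false

namespace Pool.Agent.Y72.Tr

open Finset H219.Wh Pool.Agent.Y72.Log Pool.Agent.Y72.Dt
open Pool.Agent.H23R2 (InvPair IsCoc DsumZ cf supp invPair_units)
open scoped Classical

section four

variable {I S : Type*} [Fintype I] [Fintype S] {Γ : Type*} [Group Γ] {gr : S → Γ}
  {A B : I → I → S → ℤ} {M : Type*} [AddCommGroup M]

/-- contraction of a pair -/
lemma pair_ab (h : IP gr A B) (k i : I) (φ : Γ → M) :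
    ∑ l, ∑ c, ∑ d, (A k l c * B l i d) • φ (gr c * gr d) = if k = i then φ 1 else 0 := by
  let T : Finset Γ := insert 1 ((Finset.univ : Finset (S × S)).image (fun y => gr y.1 * gr y.2))
  have hT : ∀ c d, gr c * gr d ∈ T := fun c d => Finset.mem_insert_of_mem
    (Finset.mem_image_of_mem (fun y : S × S => gr y.1 * gr y.2) (Finset.mem_univ (c, d)))
  have h1 : ∀ l c d, (A k l c * B l i d) • φ (gr c * gr d) =
      ∑ g ∈ T, (if gr c * gr d = g then A k l c * B l i d else 0) • φ g := by
    intro l c d
    simp only [ite_smul, zero_smul]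
    rw [Finset.sum_ite_eq, if_pos (hT c d)]
  simp_rw [h1]
  have h2 : ∑ l, ∑ c, ∑ d, ∑ g ∈ T, (if gr c * gr d = g then A k l c * B l i d else 0) • φ g =
      ∑ g ∈ T, (∑ l, ∑ c, ∑ d, (if gr c * gr d = g then A k l c * B l i d else 0)) • φ g := by
    simp_rw [Finset.sum_smul]
    symm
    rw [Finset.sum_comm]
    apply Finset.sum_congr rfl
    intro l _
    rw [Finset.sum_comm]
    apply Finset.sum_congr rfl
    intro c _
    rw [Finset.sum_comm]
  rw [h2]
  simp_rw [h.ab]
  simp only [ite_smul, one_smul, zero_smul]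
  by_cases hk : k = i
  · rw [if_pos hk]
    simp only [hk, true_and]
    rw [Finset.sum_ite_eq', if_pos (Finset.mem_insert_self _ _)]
  · rw [if_neg hk]
    simp only [hk, false_and, if_false, Finset.sum_const_zero]

variable (gr A B)

/-- sums over words of two letters -/
def S2 (Φ : Γ → Γ → M) : M :=
  ∑ i, ∑ j, ∑ a, ∑ b, (A i j a * B j i b) • Φ (gr a) (gr b)

/-- sums over words of four letters -/
def S4 (Θ : Γ → Γ → Γ → Γ → M) : M :=
  ∑ i, ∑ j, ∑ k, ∑ l, ∑ a, ∑ b, ∑ c, ∑ d, (A i j a * B j k b * (A k l c * B l i d)) •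
    Θ (gr a) (gr b) (gr c) (gr d)

variable {gr A B}

lemma Dsum_eq (F : Γ → Γ → M) : Dsum gr A B F = S2 gr A B (fun x y => F (x * y) x) := by
  unfold Dsum S2
  rw [Fintype.sum_prod_type]
  apply Finset.sum_congr rfl
  intro i _
  rw [Fintype.sum_prod_type]
  apply Finset.sum_congr rfl
  intro j _
  rw [Fintype.sum_prod_type]

/-- contraction of the last two letters -/
lemma c34 (h : IP gr A B) (Φ : Γ → Γ → Γ → M) :
    S4 gr A B (fun x y z w => Φ x y (z * w)) = S2 gr A B (fun x y => Φ x y 1) := by
  unfold S4 S2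
  apply Finset.sum_congr rfl
  intro i _
  apply Finset.sum_congr rfl
  intro j _
  have h1 : ∀ k, ∑ l, ∑ a, ∑ b, ∑ c, ∑ d, (A i j a * B j k b * (A k l c * B l i d)) •
      Φ (gr a) (gr b) (gr c * gr d) =
      if k = i then ∑ a, ∑ b, (A i j a * B j i b) • Φ (gr a) (gr b) 1 else 0 := by
    intro k
    rw [Finset.sum_comm]
    have h2 : ∀ a, ∑ l, ∑ b, ∑ c, ∑ d, (A i j a * B j k b * (A k l c * B l i d)) •
        Φ (gr a) (gr b) (gr c * gr d) =
        ∑ b, (A i j a * B j k b) • (if k = i then Φ (gr a) (gr b) 1 else 0) := by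
      intro a
      rw [Finset.sum_comm]
      apply Finset.sum_congr rfl
      intro b _
      rw [← pair_ab h k i (fun g => Φ (gr a) (gr b) g)]
      simp_rw [Finset.smul_sum, mul_smul]
    simp_rw [h2]
    by_cases hk : k = i
    · subst hk
      simp only [if_true]
    · simp only [hk, if_false, smul_zero, Finset.sum_const_zero]
  simp_rw [h1]
  rw [Finset.sum_ite_eq', if_pos (Finset.mem_univ _)]

/-- contraction of the middle letters -/
lemma c23 (h : IP gr A B) (Φ : Γ → Γ → Γ → M) :
    S4 gr A B (fun x y z w => Φ x (y * z) w) = S2 gr A B (fun x y => Φ x 1 y) := by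
  unfold S4 S2
  apply Finset.sum_congr rfl
  intro i _
  apply Finset.sum_congr rfl
  intro j _
  rw [Finset.sum_comm]
  have h1 : ∀ l, ∑ k, ∑ a, ∑ b, ∑ c, ∑ d, (A i j a * B j k b * (A k l c * B l i d)) •
      Φ (gr a) (gr b * gr c) (gr d) =
      if l = j then ∑ a, ∑ d, (A i j a * B j i d) • Φ (gr a) 1 (gr d) else 0 := by
    intro l
    rw [Finset.sum_comm]
    have h2 : ∀ a, ∑ k, ∑ b, ∑ c, ∑ d, (A i j a * B j k b * (A k l c * B l i d)) •
        Φ (gr a) (gr b * gr c) (gr d) =
        ∑ d, (A i j a * B l i d) • (if j = l then Φ (gr a) 1 (gr d) else 0) := by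
      intro a
      have h3 : ∀ d, (A i j a * B l i d) • (if j = l then Φ (gr a) 1 (gr d) else 0) =
          ∑ k, ∑ b, ∑ c, (A i j a * B j k b * (A k l c * B l i d)) •
            Φ (gr a) (gr b * gr c) (gr d) := by
        intro d
        rw [← pair_ab (A := B) (B := A) ⟨h.ba, h.ab⟩ j l (fun g => Φ (gr a) g (gr d))]
        simp_rw [Finset.smul_sum, ← mul_smul]
        apply Finset.sum_congr rfl
        intro k _
        apply Finset.sum_congr rfl
        intro b _
        apply Finset.sum_congr rfl
        intro c _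
        congr 1
        ring
      simp_rw [h3]
      symm
      rw [Finset.sum_comm]
      apply Finset.sum_congr rfl
      intro k _
      rw [Finset.sum_comm]
      apply Finset.sum_congr rfl
      intro b _
      rw [Finset.sum_comm]
    simp_rw [h2]
    by_cases hl : l = j
    · subst hl
      simp only [if_true]
    · have hl' : ¬ j = l := fun hc => hl hc.symm
      simp only [hl, hl', if_false, smul_zero, Finset.sum_const_zero]
  simp_rw [h1]
  rw [Finset.sum_ite_eq', if_pos (Finset.mem_univ _)]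

lemma sum4 {X : Type*} [Fintype X] {Y : Type*} [Fintype Y] (f : X → X → Y → Y → M) :
    ∑ k, ∑ l, ∑ i, ∑ j, f k l i j = ∑ i, ∑ j, ∑ k, ∑ l, f k l i j := by
  have h1 : ∀ g : X → X → M, ∑ k, ∑ l, g k l = ∑ y : X × X, g y.1 y.2 :=
    fun g => (Fintype.sum_prod_type' g).symm
  have h2 : ∀ g : Y → Y → M, ∑ k, ∑ l, g k l = ∑ y : Y × Y, g y.1 y.2 :=
    fun g => (Fintype.sum_prod_type' g).symm
  simp only [h1, h2]
  rw [Finset.sum_comm]

/-- rotation -/
lemma rot (Θ : Γ → Γ → Γ → Γ → M) :
    S4 gr A B Θ = S4 gr A B (fun x y z w => Θ z w x y) := by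
  unfold S4
  symm
  rw [sum4]
  apply Finset.sum_congr rfl
  intro i _
  apply Finset.sum_congr rfl
  intro j _
  apply Finset.sum_congr rfl
  intro k _
  apply Finset.sum_congr rfl
  intro l _
  rw [sum4]
  apply Finset.sum_congr rfl
  intro a _
  apply Finset.sum_congr rfl
  intro b _
  apply Finset.sum_congr rfl
  intro c _
  apply Finset.sum_congr rfl
  intro d _
  congr 1
  ring

lemma S4_add (Θ Θ' : Γ → Γ → Γ → Γ → M) :
    S4 gr A B (fun x y z w => Θ x y z w + Θ' x y z w) = S4 gr A B Θ + S4 gr A B Θ' := by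
  unfold S4
  simp_rw [smul_add, Finset.sum_add_distrib]

lemma S4_zero : S4 gr A B (fun _ _ _ _ => (0 : M)) = 0 := by
  unfold S4
  simp only [smul_zero, Finset.sum_const_zero]

lemma S4_smul (m : ℤ) (Θ : Γ → Γ → Γ → Γ → M) :
    S4 gr A B (fun x y z w => m • Θ x y z w) = m • S4 gr A B Θ := by
  unfold S4
  simp_rw [Finset.smul_sum, smul_comm m]

lemma S2_add (Φ Φ' : Γ → Γ → M) :
    S2 gr A B (fun x y => Φ x y + Φ' x y) = S2 gr A B Φ + S2 gr A B Φ' := by
  unfold S2
  simp_rw [smul_add, Finset.sum_add_distrib]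

lemma S2_neg (Φ : Γ → Γ → M) :
    S2 gr A B (fun x y => - Φ x y) = - S2 gr A B Φ := by
  unfold S2
  simp_rw [smul_neg, Finset.sum_neg_distrib]

lemma S2_smul (m : ℤ) (Φ : Γ → Γ → M) :
    S2 gr A B (fun x y => m • Φ x y) = m • S2 gr A B Φ := by
  unfold S2
  simp_rw [Finset.smul_sum, smul_comm m]

/-- the four cocycle values of a word -/
lemma coc_four {N : Type*} [AddCommGroup N] {E : Γ → Γ → N} (hE : IsCoc E) (x y z w : Γ) :
    E (x * y * z * w) (x * y * z * w) = E (x * y * z * w) x + E (y * z * w * x) y +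
      E (z * w * x * y) z + E (w * x * y * z) w := by
  have e1 : x * y * z * w = x * (y * (z * w)) := by group
  have e2 : x⁻¹ * (x * y * z * w) * x = y * z * w * x := by group
  have e3 : y⁻¹ * (y * z * w * x) * y = z * w * x * y := by group
  have e4 : z⁻¹ * (z * w * x * y) * z = w * x * y * z := by group
  conv_lhs => rw [show E (x * y * z * w) (x * y * z * w) =
    E (x * y * z * w) (x * (y * (z * w))) from by rw [← e1]]
  rw [hE, e2, hE, e3, hE, e4]
  abel

/-- **the pairing with cyclic cocycles is killed by the value of the additive function** -/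
theorem four (h : IP gr A B) {lam : ℤ} {F : Γ → Γ → ℤ} (hF : IsCoc F) {G : Γ → Γ → M}
    (hG : IsCoc G) (hGd : ∀ w, G w w = 0) (hFd : ∀ w, F w w = lam ∨ ∀ x, G w x = 0) :
    lam • Dsum gr A B G = 0 := by
  set Q : M := S2 gr A B (fun x y => F (x * y) x • G (x * y) x) with hQ
  set D : M := Dsum gr A B G with hD
  have hDe : D = S2 gr A B (fun x y => G (x * y) x) := Dsum_eq G
  have hlam : ∀ w x, F w w • G w x = lam • G w x := by
    intro w x
    rcases hFd w with h1 | h1
    · rw [h1]
    · rw [h1, smul_zero, smul_zero]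
  have hGxy : ∀ x y, G (y * x) y = - G (x * y) x := by
    intro x y
    have h1 := hG (x * y) x y
    have h2 : x⁻¹ * (x * y) * x = y * x := by group
    rw [h2, hGd] at h1
    exact eq_neg_of_add_eq_zero_right h1.symm
  have hFxy : ∀ x y, F (y * x) y = F (x * y) (x * y) - F (x * y) x := by
    intro x y
    have h1 := hF (x * y) x y
    have h2 : x⁻¹ * (x * y) * x = y * x := by group
    rw [h2] at h1
    omega
  -- the terms
  have t00 : S4 gr A B (fun x y z w => F (x * y * z * w) x • G (x * y * z * w) x) = Q := by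
    have h1 := c34 h (fun x y g => F (x * y * g) x • G (x * y * g) x)
    simp only [← mul_assoc, mul_one] at h1
    exact h1
  have t01 : S4 gr A B (fun x y z w => F (x * y * z * w) x • G (y * z * w * x) y) = -Q := by
    have h1 := c34 h (fun x y g => F (x * y * g) x • G (y * g * x) y)
    simp only [← mul_assoc, mul_one] at h1
    rw [h1, hQ, ← S2_neg]
    congr 1
    funext x y
    rw [hGxy, smul_neg]
  have t03 : S4 gr A B (fun x y z w => F (x * y * z * w) x • G (w * x * y * z) w) = -Q := by
    have h1 := c23 h (fun x g w => F (x * g * w) x • G (w * x * g) w)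
    simp only [← mul_assoc, mul_one] at h1
    rw [h1, hQ, ← S2_neg]
    congr 1
    funext x y
    rw [hGxy, smul_neg]
  have t0 : S4 gr A B (fun x y z w => F (x * y * z * w) x • G (x * y * z * w) x) +
      S4 gr A B (fun x y z w => F (x * y * z * w) x • G (y * z * w * x) y) +
      S4 gr A B (fun x y z w => F (x * y * z * w) x • G (z * w * x * y) z) +
      S4 gr A B (fun x y z w => F (x * y * z * w) x • G (w * x * y * z) w) = 0 := by
    rw [← S4_add, ← S4_add, ← S4_add, ← S4_zero (gr := gr) (A := A) (B := B) (M := M)]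
    congr 1
    funext x y z w
    rw [← smul_add, ← smul_add, ← smul_add, ← coc_four hG, hGd, smul_zero]
  have t02 : S4 gr A B (fun x y z w => F (x * y * z * w) x • G (z * w * x * y) z) = Q := by
    rw [t00, t01, t03] at t0
    have h1 : S4 gr A B (fun x y z w => F (x * y * z * w) x • G (z * w * x * y) z) - Q = 0 := by
      rw [← t0]
      abel
    exact sub_eq_zero.1 h1
  have t20 : S4 gr A B (fun x y z w => F (z * w * x * y) z • G (x * y * z * w) x) = Q := by
    rw [rot]
    exact t02
  have hlD : S2 gr A B (fun x y => F (y * x) y • G (x * y) x) = lam • D - Q := by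
    rw [hDe, ← S2_smul, sub_eq_add_neg, hQ, ← S2_neg, ← S2_add]
    congr 1
    funext x y
    rw [hFxy, sub_smul, hlam, sub_eq_add_neg]
  have t10 : S4 gr A B (fun x y z w => F (y * z * w * x) y • G (x * y * z * w) x) =
      lam • D - Q := by
    have h1 := c34 h (fun x y g => F (y * g * x) y • G (x * y * g) x)
    simp only [← mul_assoc, mul_one] at h1
    rw [h1, hlD]
  have t30 : S4 gr A B (fun x y z w => F (w * x * y * z) w • G (x * y * z * w) x) =
      lam • D - Q := by
    have h1 := c23 h (fun x g w => F (w * x * g) w • G (x * g * w) x)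
    simp only [← mul_assoc, mul_one] at h1
    rw [h1, hlD]
  have t0' : S4 gr A B (fun x y z w => F (x * y * z * w) x • G (x * y * z * w) x) +
      S4 gr A B (fun x y z w => F (y * z * w * x) y • G (x * y * z * w) x) +
      S4 gr A B (fun x y z w => F (z * w * x * y) z • G (x * y * z * w) x) +
      S4 gr A B (fun x y z w => F (w * x * y * z) w • G (x * y * z * w) x) = lam • D := by
    rw [← S4_add, ← S4_add, ← S4_add]
    have h1 := c34 h (fun x y g => G (x * y * g) x)
    simp only [← mul_assoc, mul_one] at h1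
    rw [hDe, ← h1, ← S4_smul]
    congr 1
    funext x y z w
    rw [← add_smul, ← add_smul, ← add_smul, ← coc_four hF, hlam]
  rw [t00, t10, t20, t30] at t0'
  have h1 : Q + (lam • D - Q) + Q + (lam • D - Q) = lam • D + lam • D := by abel
  rw [h1] at t0'
  exact left_eq_add.1 t0'.symm

end four

end Pool.Agent.Y72.Tr
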